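import Mathlib
import Pool.Agent.Helper283.ThV.CommV

set_option autoImplicit false

namespace Pool.Agent.Results.MP_3d8b4c_al.CwVOne

/-- the infinite word `w y`: the finite word `w` followed by the infinite word `y` -/
def app (w : List Bool) (y : ℕ → Bool) : ℕ → Bool :=
  fun i => if h : i < w.length then w[i] else y (i - w.length)

/-- `g` belongs to Thompson's group `V`: there are finitely many finite words `u i` and `v i` such
that the cylinders of the `u i` partition Cantor space, so do the cylinders of the `v i`, and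
`g (u i y) = v i y` for all `i` and all infinite words `y` -/
def IsV (g : (ℕ → Bool) → (ℕ → Bool)) : Prop :=
  ∃ (n : ℕ) (u v : Fin n → List Bool),
    (∀ x : ℕ → Bool, ∃! i, ∃ y, x = app (u i) y) ∧
    (∀ x : ℕ → Bool, ∃! i, ∃ y, x = app (v i) y) ∧
    ∀ i y, g (app (u i) y) = app (v i) y

/-- sanity: membership in `V` is closed under products and inverses, and the identity is in `V` -/
theorem isV_group : IsV (1 : Equiv.Perm (ℕ → Bool)) ∧
    (∀ a b : Equiv.Perm (ℕ → Bool), IsV a → IsV b → IsV (a * b : Equiv.Perm (ℕ → Bool))) ∧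
    (∀ a : Equiv.Perm (ℕ → Bool), IsV a → IsV (a⁻¹ : Equiv.Perm (ℕ → Bool))) := by
  have key : ∀ a : Equiv.Perm (ℕ → Bool), IsV a ↔ a ∈ Helper283.ThV.V := by
    intro a
    constructor
    · intro h
      obtain ⟨e, he, he'⟩ := Helper283.ThV.mem_of_isV h
      have : e = a := Equiv.ext he'
      rwa [this] at he
    · intro h; exact Helper283.ThV.isV_of_mem h
  refine ⟨(key 1).2 (one_mem _), fun a b ha hb => ?_, fun a ha => ?_⟩
  · exact (key _).2 (mul_mem ((key a).1 ha) ((key b).1 hb))
  · exact (key _).2 (inv_mem ((key a).1 ha))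

/-- every element of `V` is a commutator of two elements of `V` -/
theorem result : ∀ g : (ℕ → Bool) → (ℕ → Bool), IsV g →
    ∃ a b : Equiv.Perm (ℕ → Bool), IsV a ∧ IsV b ∧
      ∀ x, g x = (a⁻¹ * b⁻¹ * a * b : Equiv.Perm (ℕ → Bool)) x := by
  intro g hg
  obtain ⟨e, he, he'⟩ := Helper283.ThV.mem_of_isV hg
  obtain ⟨a, ha, b, hb, hab⟩ := Helper283.ThV.comm_V he
  refine ⟨a, b, Helper283.ThV.isV_of_mem ha, Helper283.ThV.isV_of_mem hb, fun x => ?_⟩
  rw [← he' x, hab]

end Pool.Agent.Results.MP_3d8b4c_al.CwVOne
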